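import Mathlib

/-!
Pairwise reversing permutations: thirty-two words on eight positions, eight of them using only six
positions, give the recursion RP (n + 8) ≥ 8 RP (n + 2) + 24 RP n.
-/

namespace Pool.Agent.MP_9b11ca_co

open Equiv

/-- Two positions carry the same two values in opposite order. -/
def Rev {α : Type} (σ τ : Perm α) : Prop := ∃ i j : α, i ≠ j ∧ σ i = τ j ∧ σ j = τ i

def wordList : List (List ℕ) :=
  [[3, 5, 0, 4, 6, 7, 1, 2],
   [3, 5, 1, 6, 4, 2, 0, 7],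
   [0, 1, 5, 7, 2, 3, 4, 6],
   [1, 0, 2, 3, 7, 6, 5, 4],
   [2, 7, 6, 1, 0, 3, 4, 5],
   [4, 6, 7, 5, 1, 0, 2, 3],
   [6, 4, 2, 3, 5, 1, 7, 0],
   [7, 2, 4, 0, 1, 5, 6, 3],
   [0, 1, 6, 7, 2, 4, 3, 5],
   [0, 7, 5, 1, 2, 4, 3, 6],
   [0, 7, 6, 1, 2, 3, 4, 5],
   [1, 0, 3, 2, 5, 6, 7, 4],
   [1, 4, 2, 3, 5, 6, 7, 0],
   [1, 4, 3, 2, 7, 6, 5, 0],
   [2, 1, 5, 7, 0, 4, 3, 6],
   [2, 1, 6, 7, 0, 3, 4, 5],
   [2, 7, 5, 1, 0, 3, 4, 6],
   [3, 5, 0, 6, 4, 2, 1, 7],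
   [3, 5, 1, 4, 6, 2, 0, 7],
   [3, 5, 1, 6, 4, 7, 0, 2],
   [4, 2, 7, 0, 1, 5, 6, 3],
   [4, 2, 7, 5, 3, 0, 6, 1],
   [4, 6, 7, 0, 3, 5, 2, 1],
   [5, 3, 0, 4, 6, 2, 1, 7],
   [5, 3, 0, 6, 4, 7, 1, 2],
   [5, 3, 1, 4, 6, 7, 0, 2],
   [6, 0, 2, 3, 5, 1, 7, 4],
   [6, 0, 3, 2, 7, 1, 5, 4],
   [6, 4, 2, 3, 7, 1, 5, 0],
   [7, 2, 4, 5, 1, 0, 6, 3],
   [7, 6, 4, 0, 1, 5, 2, 3],
   [7, 6, 4, 5, 3, 0, 2, 1]]
def maskList : List ℕ :=
  [252, 252, 159, 243, 159, 111, 243, 111, 255, 255, 255, 255, 255, 255, 255, 255, 255, 255, 255, 255, 255, 255, 255, 255, 255, 255, 255, 255, 255, 255, 255, 255]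

def word (w : Fin 32) (i : Fin 8) : Fin 8 :=
  ⟨((wordList.getD w.val []).getD i.val 0) % 8, Nat.mod_lt _ (by norm_num)⟩

def supp (w : Fin 32) : Finset (Fin 8) :=
  Finset.univ.filter fun i => (maskList.getD w.val 0).testBit i.val = true

theorem word_inj : ∀ w : Fin 32, ∀ i j : Fin 8, word w i = word w j → i = j := by
  decide +kernel

theorem word_rev : ∀ v w : Fin 32, v ≠ w → ∃ i ∈ supp v, ∃ j ∈ supp v, i ∈ supp w ∧ j ∈ supp w ∧
    i ≠ j ∧ word v i = word w j ∧ word v j = word w i := by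
  decide +kernel

theorem supp_card : ∀ w : Fin 32, (supp w).card = if w.val < 8 then 6 else 8 := by
  decide +kernel

noncomputable def wordPerm (w : Fin 32) : Perm (Fin 8) :=
  Equiv.ofBijective (word w) (Finite.injective_iff_bijective.1 fun i j h => word_inj w i j h)

/-- A pairwise reversing family on `α` of size at least `x ^ (card α - 7)`. -/
def Good (x : ℝ) (α : Type) [Fintype α] : Prop :=
  ∃ (ι : Type) (_ : Fintype ι) (f : ι → Perm α),
    (∀ a b, a ≠ b → Rev (f a) (f b)) ∧ x ^ Fintype.card α ≤ x ^ 7 * Fintype.card ι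

theorem Good.transfer {x : ℝ} {α β : Type} [Fintype α] [Fintype β] (e : α ≃ β) (h : Good x α) :
    Good x β := by
  obtain ⟨ι, hι, f, hf, hc⟩ := h
  refine ⟨ι, hι, fun a => e.permCongr (f a), fun a b hab => ?_, by rwa [← Fintype.card_congr e]⟩
  obtain ⟨i, j, hij, h1, h2⟩ := hf a b hab
  exact ⟨e i, e j, fun h => hij (e.injective h), by simp [h1], by simp [h2]⟩

theorem good_step {x : ℝ} (hx : 1 ≤ x) (hr : x ^ 8 ≤ 8 * x ^ 2 + 24) (m : ℕ)
    (ih : ∀ (α : Type) [Fintype α], Fintype.card α < m + 8 → Good x α) :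
    Good x (Fin 8 ⊕ Fin m) := by
  classical
  let D : Fin 32 → Finset (Fin 8 ⊕ Fin m) := fun w => (supp w).map Function.Embedding.inl
  have hcard : ∀ w, Fintype.card {y : Fin 8 ⊕ Fin m // ¬ y ∈ D w}
      = if w.val < 8 then m + 2 else m := by
    intro w
    rw [Fintype.card_subtype_compl, Fintype.card_coe, Finset.card_map, supp_card]
    simp only [Fintype.card_sum, Fintype.card_fin]
    split_ifs <;> omega
  have hg : ∀ w, Good x {y : Fin 8 ⊕ Fin m // ¬ y ∈ D w} := by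
    intro w
    refine ih _ ?_
    rw [hcard]
    split_ifs <;> omega
  choose ι hι f hf hc using hg
  let F : (Σ w, ι w) → Perm (Fin 8 ⊕ Fin m) := fun a =>
    Perm.sumCongr (wordPerm a.1) 1 * Perm.ofSubtype (f a.1 a.2)
  have hF : ∀ (a : Σ w, ι w) (i : Fin 8), i ∈ supp a.1 → F a (Sum.inl i) = Sum.inl (word a.1 i) := by
    intro a i hi
    have : Perm.ofSubtype (f a.1 a.2) (Sum.inl i) = Sum.inl i :=
      Perm.ofSubtype_apply_of_not_mem _ (not_not.2 (Finset.mem_map_of_mem _ hi))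
    simp only [F, Perm.mul_apply, this]
    rfl
  refine ⟨Σ w, ι w, inferInstance, F, ?_, ?_⟩
  · rintro ⟨v, a⟩ ⟨w, b⟩ hab
    by_cases hvw : v = w
    · subst hvw
      obtain ⟨i, j, hij, h1, h2⟩ := hf v a b fun h => hab (by rw [h])
      refine ⟨i.1, j.1, fun h => hij (Subtype.ext h), ?_, ?_⟩
      · simp only [F, Perm.mul_apply, Perm.ofSubtype_apply_coe, h1]
      · simp only [F, Perm.mul_apply, Perm.ofSubtype_apply_coe, h2]
    · obtain ⟨i, hi, j, hj, hi', hj', hij, h1, h2⟩ := word_rev v w hvw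
      refine ⟨Sum.inl i, Sum.inl j, fun h => hij (Sum.inl_injective h), ?_, ?_⟩
      · rw [hF ⟨v, a⟩ i hi, hF ⟨w, b⟩ j hj', h1]
      · rw [hF ⟨v, a⟩ j hj, hF ⟨w, b⟩ i hi', h2]
  · rw [Fintype.card_sigma, Nat.cast_sum, Finset.mul_sum]
    have h1 : ∑ w : Fin 32, x ^ (if w.val < 8 then m + 2 else m)
        ≤ ∑ w : Fin 32, x ^ 7 * (Fintype.card (ι w) : ℝ) :=
      Finset.sum_le_sum fun w _ => by rw [← hcard]; exact hc w
    have h2 : ∑ w : Fin 32, x ^ (if w.val < 8 then m + 2 else m)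
        = 8 * x ^ (m + 2) + 24 * x ^ m := by
      simp [Fin.sum_univ_succ]
      ring
    have h3 : 0 ≤ x ^ m := by positivity
    have h4 : x ^ Fintype.card (Fin 8 ⊕ Fin m) = x ^ m * x ^ 8 := by
      simp only [Fintype.card_sum, Fintype.card_fin]
      ring
    rw [h4]
    calc x ^ m * x ^ 8 ≤ x ^ m * (8 * x ^ 2 + 24) := mul_le_mul_of_nonneg_left hr h3
      _ = 8 * x ^ (m + 2) + 24 * x ^ m := by ring
      _ ≤ _ := h2 ▸ h1

theorem good_all {x : ℝ} (hx : 1 ≤ x) (hr : x ^ 8 ≤ 8 * x ^ 2 + 24) (n : ℕ) :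
    ∀ (α : Type) [Fintype α], Fintype.card α = n → Good x α := by
  induction n using Nat.strong_induction_on with
  | _ n ih =>
    intro α _ hα
    by_cases hn : n ≤ 7
    · refine ⟨Unit, inferInstance, fun _ => 1, fun a b hab => absurd rfl hab, ?_⟩
      simpa [hα] using pow_le_pow_right₀ hx hn
    · obtain ⟨m, rfl⟩ : ∃ m, n = m + 8 := ⟨n - 8, by omega⟩
      refine (good_step hx hr m fun β _ hβ => ih _ hβ β rfl).transfer
        (Fintype.equivOfCardEq ?_)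
      simp only [Fintype.card_sum, Fintype.card_fin, hα]
      omega

end Pool.Agent.MP_9b11ca_co
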