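import Mathlib

/-!
Perfect matchings whose pairwise unions contain a cycle of length four. The seven translations of
the cube `F_2 ^ 3`, restricted to the seven nonzero points, use three edges each; the point left
over joins the remaining vertices.
-/

namespace Pool.Agent.MP_9b11ca_co.Fano

/-- `k` involutions without fixed points, any two of which span a four-cycle -/
def Good (α : Type) (k : ℕ) : Prop :=
  ∃ (ι : Type) (_ : Fintype ι) (f : ι → α → α), (∀ a x, f a (f a x) = x ∧ f a x ≠ x) ∧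
    (∀ a b, a ≠ b → ∃ x, f a x ≠ f b x ∧ f a (f b x) = f b (f a x)) ∧ k ≤ Fintype.card ι

theorem Good.transfer {α β : Type} {k : ℕ} (e : α ≃ β) (h : Good α k) : Good β k := by
  obtain ⟨ι, hι, f, h1, h2, hc⟩ := h
  refine ⟨ι, hι, fun a y => e (f a (e.symm y)), fun a y => ⟨by simp [(h1 a _).1], fun h => ?_⟩,
    fun a b hab => ?_, hc⟩
  · exact (h1 a (e.symm y)).2 (e.eq_symm_apply.2 h)
  · obtain ⟨x, hx, hx'⟩ := h2 a b hab
    exact ⟨e x, by simpa using hx, by simpa using hx'⟩

/-- translation by the point `w`, the points being the numbers `1, …, 7` in binary -/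
def tr (w i : Fin 7) : Fin 7 := ⟨(((w.val + 1) ^^^ (i.val + 1)) + 6) % 7, Nat.mod_lt _ (by omega)⟩

theorem tr_inv : ∀ w i : Fin 7, i ≠ w → tr w i ≠ w ∧ tr w i ≠ i ∧ tr w (tr w i) = i := by
  decide +kernel

theorem tr_cross : ∀ v w : Fin 7, v ≠ w → ∃ i, i ≠ v ∧ i ≠ w ∧ tr v i ≠ w ∧ tr w i ≠ v ∧
    tr v i ≠ tr w i ∧ tr v (tr w i) = tr w (tr v i) := by
  decide +kernel

def emb {β : Type} (w : Fin 7) : Option β → Fin 7 ⊕ β
  | none => .inl w
  | some y => .inr y

def ext {β : Type} (w : Fin 7) (g : Option β → Option β) : Fin 7 ⊕ β → Fin 7 ⊕ β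
  | .inl i => if i = w then emb w (g none) else .inl (tr w i)
  | .inr y => emb w (g (some y))

theorem emb_inj {β : Type} (w : Fin 7) : Function.Injective (emb (β := β) w) := by
  rintro (_ | x) (_ | y) h <;> simp_all [emb]

theorem ext_emb {β : Type} (w : Fin 7) (g : Option β → Option β) (z : Option β) :
    ext w g (emb w z) = emb w (g z) := by
  cases z <;> simp [emb, ext]

theorem ext_inl {β : Type} {w i : Fin 7} (g : Option β → Option β) (h : i ≠ w) :
    ext w g (.inl i) = .inl (tr w i) := by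
  simp [ext, h]

theorem cases_emb {β : Type} (w : Fin 7) (x : Fin 7 ⊕ β) :
    (∃ z, x = emb w z) ∨ ∃ i, i ≠ w ∧ x = .inl i := by
  rcases x with i | y
  · by_cases h : i = w
    · exact .inl ⟨none, by rw [h]; rfl⟩
    · exact .inr ⟨i, h, rfl⟩
  · exact .inl ⟨some y, rfl⟩

theorem Good.step {β : Type} {k : ℕ} (h : Good (Option β) k) : Good (Fin 7 ⊕ β) (7 * k) := by
  obtain ⟨ι, hι, f, h1, h2, hc⟩ := h
  refine ⟨Fin 7 × ι, inferInstance, fun p => ext p.1 (f p.2), fun ⟨w, a⟩ x => ?_,
    fun ⟨v, a⟩ ⟨w, b⟩ hne => ?_, ?_⟩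
  · rcases cases_emb w x with ⟨z, rfl⟩ | ⟨i, hi, rfl⟩
    · simp only [ext_emb, (h1 a z).1, true_and]
      exact fun h => (h1 a z).2 (emb_inj w h)
    · obtain ⟨t1, t2, t3⟩ := tr_inv w i hi
      simp only [ext_inl _ hi, ext_inl _ t1, t3, true_and]
      exact fun h => t2 (Sum.inl_injective h)
  · by_cases hvw : v = w
    · subst hvw
      obtain ⟨x, hx, hx'⟩ := h2 a b fun h => hne (by rw [h])
      refine ⟨emb v x, ?_, ?_⟩
      · simp only [ext_emb]
        exact fun h => hx (emb_inj v h)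
      · simp only [ext_emb, hx']
    · obtain ⟨i, t1, t2, t3, t4, t5, t6⟩ := tr_cross v w hvw
      refine ⟨.inl i, ?_, ?_⟩
      · simp only [ext_inl _ t1, ext_inl _ t2]
        exact fun h => t5 (Sum.inl_injective h)
      · simp only [ext_inl _ t1, ext_inl _ t2, ext_inl _ t3, ext_inl _ t4, t6]
  · rw [Fintype.card_prod, Fintype.card_fin]
    omega

theorem good_all (n : ℕ) : Good (Fin (2 * n)) (7 ^ ((n - 1) / 3)) := by
  induction n using Nat.strong_induction_on with
  | _ n ih =>
    by_cases hn : n ≤ 3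
    · rw [show (n - 1) / 3 = 0 by omega, pow_zero]
      refine Good.transfer (α := Fin n ⊕ Fin n) (Fintype.equivOfCardEq (by simp; omega)) ?_
      refine ⟨Unit, inferInstance, fun _ => Sum.swap, fun _ x => ⟨Sum.swap_swap x, ?_⟩,
        fun a b h => absurd rfl h, le_rfl⟩
      cases x <;> simp
    · have h := (ih (n - 3) (by omega)).transfer (β := Option (Fin (2 * n - 7)))
        (Fintype.equivOfCardEq (by simp; omega))
      rw [show (n - 1) / 3 = (n - 3 - 1) / 3 + 1 by omega, pow_succ']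
      exact h.step.transfer (Fintype.equivOfCardEq (by simp; omega))

end Pool.Agent.MP_9b11ca_co.Fano
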