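import Mathlib

/-! A positive semidefinite kernel on fixed point free involutions that vanishes on the pairs whose
union contains a cycle of length four. -/

namespace Pool.Agent.MP_9b11ca_co.Match

open Finset Equiv

variable {V : Type} [Fintype V] [DecidableEq V]

/-- `π` maps `S` onto `T`. -/
def To (π : Perm V) (S T : Finset V) : Prop := ∀ x, π x ∈ T ↔ x ∈ S

open Classical in
/-- The restriction of `σ` to an invariant set, extended by the identity. -/
noncomputable def res (σ : Perm V) (S : Finset V) : Perm V :=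
  if h : To σ S S then Perm.ofSubtype (σ.subtypePerm (p := (· ∈ S)) h) else 1

theorem res_apply {σ : Perm V} {S : Finset V} (h : To σ S S) (x : V) :
    res σ S x = if x ∈ S then σ x else x := by
  rw [res, dif_pos h]
  split_ifs with hx
  · rw [Perm.ofSubtype_apply_of_mem _ hx]; rfl
  · rw [Perm.ofSubtype_apply_of_not_mem _ hx]

noncomputable def sg (σ : Perm V) (S : Finset V) : ℝ := ((Perm.sign (res σ S) : ℤ) : ℝ)

theorem sg_sq (σ : Perm V) (S : Finset V) : sg σ S * sg σ S = 1 := by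
  rcases Int.units_eq_one_or (Perm.sign (res σ S)) with h | h <;> simp [sg, h]

theorem To.div {a b : Perm V} {S T : Finset V} (ha : To a S T) (hb : To b S T) : To (b⁻¹ * a) S S :=
  fun x => by rw [← hb, ← ha]; simp

theorem sg_mul {σ τ : Perm V} {S : Finset V} (h : To σ S S) (k : To τ S S) :
    sg σ S * sg τ S = sg (σ⁻¹ * τ) S := by
  have e : res τ S = res σ S * res (σ⁻¹ * τ) S := by
    ext x
    rw [Perm.mul_apply, res_apply h, res_apply k, res_apply (k.div h)]
    by_cases hx : x ∈ S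
    · have := (k.div h x).2 hx
      simp only [hx, this, if_true]
      simp
    · simp [hx]
  have := sg_sq σ S
  have e2 : sg τ S = sg σ S * sg (σ⁻¹ * τ) S := by simp [sg, e]
  rw [e2, ← mul_assoc, this, one_mul]

open Classical in
/-- A reference permutation that maps `S` onto `T`. -/
noncomputable def rf (S T : Finset V) : Perm V := if h : ∃ π, To π S T then h.choose else 1

theorem To.rf {a : Perm V} {S T : Finset V} (ha : To a S T) : To (rf S T) S T := by
  have h : ∃ π, To π S T := ⟨a, ha⟩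
  rw [Match.rf, dif_pos h]
  exact h.choose_spec

open Classical in
/-- The coordinates of the vector of `a`. -/
noncomputable def co (a : Perm V) (S T : Finset V) : ℝ :=
  if To a S T ∧ Disjoint S T then sg ((rf S T)⁻¹ * a) S else 0

/-- The sets that contribute to the kernel. -/
def Ok (a σ : Perm V) (S : Finset V) : Prop := (∀ x ∈ S, a x ∉ S) ∧ To σ S S

open Classical in
noncomputable def tm (β : ℝ) (a σ : Perm V) (S : Finset V) : ℝ :=
  if Ok a σ S then β ^ S.card * sg σ S else 0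

theorem to_image (a : Perm V) (S : Finset V) : To a S (S.image a) := fun x => by simp

theorem To.eq {a : Perm V} {S T : Finset V} (h : To a S T) : T = S.image a := by
  ext y
  obtain ⟨x, rfl⟩ := a.surjective y
  rw [h, to_image]

theorem sum_co (β : ℝ) (a b : Perm V) (S : Finset V) :
    ∑ T, β ^ S.card * (co b S T * co a S T) = tm β a (b⁻¹ * a) S := by
  classical
  rw [sum_eq_single (S.image a)]
  · have ha := to_image a S
    have hd : Disjoint S (S.image a) ↔ ∀ x ∈ S, a x ∉ S := by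
      rw [disjoint_right]
      simp
    have hb : To b S (S.image a) ↔ To (b⁻¹ * a) S S := by
      refine ⟨fun h => ha.div h, fun h x => ?_⟩
      obtain ⟨y, rfl⟩ := (b⁻¹ * a).surjective x
      rw [h, ← ha]
      simp
    by_cases h : Ok a (b⁻¹ * a) S
    · rw [tm, if_pos h, co, co, if_pos ⟨hb.2 h.2, hd.2 h.1⟩, if_pos ⟨ha, hd.2 h.1⟩,
        sg_mul ((hb.2 h.2).div ha.rf) (ha.div ha.rf)]
      congr 2
      group
    · rw [tm, if_neg h, co, if_neg fun k => h ⟨hd.1 k.2, hb.1 k.1⟩]
      simp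
  · intro T _ ne
    rw [co.eq_1 a, if_neg fun k => ne k.1.eq]
    simp
  · simp

theorem shift (β : ℝ) {a σ : Perm V} {i j k l : V} (hij : a i = j) (hji : a j = i) (hkl : a k = l)
    (hlk : a l = k) (s1 : σ i = k) (s2 : σ k = i) (s3 : σ j = l) (ik : i ≠ k)
    (ij : i ≠ j) (il : i ≠ l) (kj : k ≠ j) (kl : k ≠ l) :
    ∑ S with i ∈ S, tm β a σ S = -β ^ 2 * ∑ S with i ∉ S ∧ j ∉ S, tm β a σ S := by
  classical
  simp only [tm, ← sum_filter, filter_filter, mul_sum]
  symm
  have key : ∀ S : Finset V, i ∉ S → k ∉ S →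
      (To σ (insert i (insert k S)) (insert i (insert k S)) ↔ To σ S S) := by
    intro S hi hk
    refine forall_congr' fun x => ?_
    have e1 : σ x = i ↔ x = k := by rw [← s2]; simp
    have e2 : σ x = k ↔ x = i := by rw [← s1]; simp
    simp only [mem_insert, e1, e2]
    by_cases x1 : x = i
    · subst x1; simp [s1, hi, hk]
    · by_cases x2 : x = k
      · subst x2; simp [s2, hi, hk]
      · simp [x1, x2]
  refine sum_nbij' (fun S => insert i (insert k S)) (fun S => (S.erase i).erase k) ?_ ?_ ?_ ?_ ?_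
  · intro S hS
    simp only [mem_filter, mem_univ, true_and] at hS ⊢
    obtain ⟨⟨hi, hj⟩, h1, h2⟩ := hS
    have hk : k ∉ S := fun h => hi ((h2 i).1 (s1 ▸ h))
    have hl : l ∉ S := fun h => hj ((h2 j).1 (s3 ▸ h))
    refine ⟨by simp, fun x hx => ?_, (key S hi hk).2 h2⟩
    have e1 : a x = i ↔ x = j := by rw [← hji]; simp
    have e2 : a x = k ↔ x = l := by rw [← hlk]; simp
    simp only [mem_insert, e1, e2, not_or] at hx ⊢
    rcases hx with rfl | rfl | hx
    · exact ⟨ij, il, hij ▸ hj⟩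
    · exact ⟨kj, kl, hkl ▸ hl⟩
    · exact ⟨fun e => hj (e ▸ hx), fun e => hl (e ▸ hx), h1 x hx⟩
  · intro S hS
    simp only [mem_filter, mem_univ, true_and] at hS ⊢
    obtain ⟨hi, h1, h2⟩ := hS
    have hk : k ∈ S := s1 ▸ (h2 i).2 hi
    have hj : j ∉ S := hij ▸ h1 i hi
    refine ⟨⟨by simp, by simp [hj]⟩, fun x hx => ?_, (key _ (by simp) (by simp)).1 ?_⟩
    · simp only [mem_erase] at hx ⊢
      exact fun h => h1 x hx.2.2 h.2.2
    · rwa [insert_erase (by simp [hk, ik.symm]), insert_erase hi]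
  · intro S hS
    simp only [mem_filter, mem_univ, true_and] at hS
    obtain ⟨⟨hi, hj⟩, h1, h2⟩ := hS
    have hk : k ∉ S := fun h => hi ((h2 i).1 (s1 ▸ h))
    rw [erase_insert (by simp [hi, ik]), erase_insert hk]
  · intro S hS
    simp only [mem_filter, mem_univ, true_and] at hS
    obtain ⟨hi, h1, h2⟩ := hS
    have hk : k ∈ S := s1 ▸ (h2 i).2 hi
    rw [insert_erase (by simp [hk, ik.symm]), insert_erase hi]
  · intro S hS
    simp only [mem_filter, mem_univ, true_and] at hS
    obtain ⟨⟨hi, hj⟩, h1, h2⟩ := hS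
    have hk : k ∉ S := fun h => hi ((h2 i).1 (s1 ▸ h))
    have e : res σ (insert i (insert k S)) = res σ S * swap i k := by
      ext x
      rw [Perm.mul_apply, res_apply h2, res_apply ((key S hi hk).2 h2)]
      by_cases x1 : x = i
      · subst x1; simp [s1, hk]
      · by_cases x2 : x = k
        · subst x2; simp [s2, hi]
        · simp [x1, x2, swap_apply_of_ne_of_ne]
    rw [card_insert_of_notMem (by simp [hi, ik]), card_insert_of_notMem hk]
    simp only [sg, e, Perm.sign_mul, Perm.sign_swap ik]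
    push_cast
    ring

theorem off {β : ℝ} (hβ : 2 * β ^ 2 = 1) {a b : Perm V} (ha : ∀ x, a (a x) = x) (hb : ∀ x, b (b x) = x)
    {i j k l : V} (hij : a i = j) (hjk : b j = k) (hkl : a k = l) (hli : b l = i) (ik : i ≠ k)
    (jl : j ≠ l) (ij : i ≠ j) (il : i ≠ l) (kj : k ≠ j) (kl : k ≠ l) :
    ∑ S, tm β a (b⁻¹ * a) S = 0 := by
  classical
  have hji : a j = i := hij ▸ ha i
  have hlk : a l = k := hkl ▸ ha k
  have hkj : b k = j := hjk ▸ hb j
  have hil : b i = l := hli ▸ hb l
  have bi : ∀ x, (b⁻¹ * a) x = b (a x) := fun x => by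
    rw [Perm.mul_apply, Perm.inv_eq_iff_eq, hb]
  have s1 : (b⁻¹ * a) i = k := by rw [bi, hij, hjk]
  have s2 : (b⁻¹ * a) k = i := by rw [bi, hkl, hli]
  have s3 : (b⁻¹ * a) j = l := by rw [bi, hji, hil]
  have s4 : (b⁻¹ * a) l = j := by rw [bi, hlk, hkj]
  have h1 := shift β hij hji hkl hlk s1 s2 s3 ik ij il kj kl
  have h2 := shift β hji hij hlk hkl s3 s4 s1 jl ij.symm kj.symm il.symm kl.symm
  simp only [sum_filter, and_comm (a := j ∉ _)] at h1 h2
  have h3 : ∑ S, tm β a (b⁻¹ * a) S = ∑ S, (if i ∈ S then tm β a (b⁻¹ * a) S else 0) +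
      ∑ S, (if j ∈ S then tm β a (b⁻¹ * a) S else 0) +
      ∑ S, (if i ∉ S ∧ j ∉ S then tm β a (b⁻¹ * a) S else 0) := by
    rw [← sum_add_distrib, ← sum_add_distrib]
    refine sum_congr rfl fun S _ => ?_
    by_cases hi : i ∈ S <;> by_cases hj : j ∈ S <;> simp [hi, hj]
    rw [tm, if_neg fun h => h.1 i hi (hij ▸ hj)]
  rw [h3, h1, h2]
  linear_combination (-∑ S, (if i ∉ S ∧ j ∉ S then tm β a (b⁻¹ * a) S else 0)) * hβ

theorem diag {β : ℝ} (hβ : 0 ≤ β) {n : ℕ} {a : Perm (Fin (2 * n))} (ha : ∀ x, a (a x) = x)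
    (hf : ∀ x, a x ≠ x) : ∑ S, tm β a (a⁻¹ * a) S ≤ (1 + 2 * β) ^ n := by
  classical
  set R : Finset (Fin (2 * n)) := univ.filter fun x => x < a x with hR
  have hc : R.card = n := by
    have h1 : R.card = (univ.filter fun x => ¬ x < a x).card := by
      refine card_nbij' a a ?_ ?_ (fun x _ => ha x) fun x _ => ha x
      · intro x hx
        simp only [hR, coe_filter, mem_univ, true_and, Set.mem_ofPred_eq, ha] at hx ⊢
        exact hx.le.not_gt
      · intro x hx
        simp only [hR, coe_filter, mem_univ, true_and, Set.mem_ofPred_eq, ha] at hx ⊢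
        exact lt_of_le_of_ne (not_lt.1 hx) (hf x)
    have h2 := card_filter_add_card_filter_not (s := (univ : Finset (Fin (2 * n)))) fun x => x < a x
    rw [← hR, ← h1, card_univ, Fintype.card_fin] at h2
    omega
  have hn : ∀ x, x ∉ R → a x ∈ R := fun x hx => by
    simp only [hR, mem_filter, mem_univ, true_and, ha] at hx ⊢
    exact lt_of_le_of_ne (not_lt.1 hx) (hf x)
  have e : (1 + 2 * β) ^ n = ∑ p ∈ R.powerset.sigma fun A => (R \ A).powerset,
      β ^ (p.1.card + p.2.card) := by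
    rw [sum_sigma, show (1 + 2 * β) ^ n = (β + (β + 1)) ^ R.card by rw [hc]; ring,
      ← sum_pow_mul_eq_add_pow]
    refine sum_congr rfl fun A hA => ?_
    rw [← card_sdiff_of_subset (mem_powerset.1 hA), ← sum_pow_mul_eq_add_pow, mul_sum]
    simp [pow_add]
  have e2 : ∑ S, tm β a (a⁻¹ * a) S = ∑ S with Ok a (a⁻¹ * a) S, β ^ S.card := by
    rw [sum_filter]
    refine sum_congr rfl fun S _ => ?_
    have := sg_mul (σ := 1) (τ := 1) (S := S) (fun _ => Iff.rfl) fun _ => Iff.rfl
    rw [sg_sq] at this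
    simp only [tm, inv_mul_cancel] at this ⊢
    rw [← this, mul_one]
  rw [e, e2]
  have inj : Set.InjOn (fun S : Finset (Fin (2 * n)) =>
      (⟨S ∩ R, (S \ R).image a⟩ : Σ _ : Finset _, Finset _)) (univ.filter (Ok a (a⁻¹ * a))) := by
    intro S _ T _ h
    simp only [Sigma.mk.injEq, heq_eq_eq] at h
    rw [← sdiff_union_inter S R, ← sdiff_union_inter T R, h.1, image_injective a.injective h.2]
  have := sum_image (f := fun p : Σ _ : Finset (Fin (2 * n)), Finset (Fin (2 * n)) =>
    β ^ (p.1.card + p.2.card)) inj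
  simp only [card_image_of_injective _ a.injective, card_inter_add_card_sdiff] at this
  rw [← this]
  refine sum_le_sum_of_subset_of_nonneg (fun p hp => ?_) fun _ _ _ => by positivity
  obtain ⟨S, hS, rfl⟩ := mem_image.1 hp
  simp only [mem_sigma, mem_powerset]
  refine ⟨inter_subset_right, fun y hy => ?_⟩
  obtain ⟨x, hx, rfl⟩ := mem_image.1 hy
  rw [mem_sdiff] at hx ⊢
  exact ⟨hn x hx.2, fun h => (mem_filter.1 hS).2.1 x hx.1 (mem_inter.1 h).1⟩

theorem main {ι : Type} (F : Finset ι) {β c : ℝ} (hβ : 0 ≤ β) (f : ι → Perm V)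
    (h0 : ∀ x ∈ F, ∀ y ∈ F, x ≠ y → ∑ S, tm β (f x) ((f y)⁻¹ * f x) S = 0)
    (h1 : ∀ x ∈ F, ∑ S, tm β (f x) ((f x)⁻¹ * f x) S ≤ c) (hc : 0 ≤ c) : (F.card : ℝ) ≤ c := by
  classical
  have k1 : (F.card : ℝ) ^ 2 ≤ ∑ S : Finset V, ∑ T : Finset V, β ^ S.card * (∑ x ∈ F, co (f x) S T) ^ 2 := by
    have z : ∀ a : Perm V, co a ∅ ∅ = 1 := fun a => by
      have t : ∀ a : Perm V, To a ∅ ∅ := fun a x => by simp
      have : res ((rf ∅ ∅)⁻¹ * a) ∅ = 1 := by
        ext x
        simp [res_apply (t _)]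
      simp [co, t, sg, this]
    refine le_trans ?_ (single_le_sum (fun S _ => sum_nonneg fun T _ => by positivity) (mem_univ ∅))
    refine le_trans ?_ (single_le_sum (fun T _ => by positivity) (mem_univ ∅))
    simp [z]
  have k2 : ∑ S : Finset V, ∑ T : Finset V, β ^ S.card * (∑ x ∈ F, co (f x) S T) ^ 2 =
      ∑ x ∈ F, ∑ y ∈ F, ∑ S, tm β (f x) ((f y)⁻¹ * f x) S := by
    simp only [← sum_co, sq, sum_mul, mul_sum]
    simp only [sum_comm (s := (univ : Finset (Finset V))) (t := F)]
  have k3 : ∑ x ∈ F, ∑ y ∈ F, ∑ S, tm β (f x) ((f y)⁻¹ * f x) S ≤ F.card * c := by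
    rw [← nsmul_eq_mul, ← sum_const]
    refine sum_le_sum fun x hx => ?_
    rw [sum_eq_single_of_mem x hx fun y hy ne => h0 x hx y hy ne.symm]
    exact h1 x hx
  rcases (Nat.cast_nonneg (α := ℝ) F.card).eq_or_lt with h | h
  · rwa [← h]
  · nlinarith

end Pool.Agent.MP_9b11ca_co.Match
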